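import Mathlib
import Pool.Agent.Q78.FO.ReducedH

set_option autoImplicit false

/-!
# A bound for `h¹` of prime divisors which depends only on the different multiplicities

Let `k` be a field of characteristic zero and `X` the blow-up of the plane at `s` generic points. Let
`(d, w)` be the class of a prime divisor `C` on `X`, or more generally of a divisor whose image in
the plane is a reduced curve. Then
`h¹ (C) ≤ ∑ binom (y - 1) 2`, the sum over `y ∈ Y`,
for every finite set `Y` of integers such that every multiplicity `w i ≥ 2` is one of the numbers
`y` and `y - 1`, `y ∈ Y`, for instance for the set of the different multiplicities. The bound depends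
neither on the number `s` of the points nor on the degree nor on how often the multiplicities occur.
Question Q1 asks whether `h¹ (C) = 0`.

The proof: if at one of the points `p i`, `w i ≥ 2`, the leading forms of the members of the system
with `w i` lowered by one are spanned by one form, then the leading forms of degree `w i` of the
members of `|C|` are killed by the derivative in some direction `v`, and the derivation of the field
which moves `p i` in the direction `v` and fixes the other points maps the space of the forms into
itself. So this space has a basis over the field of constants of the derivation, and the curve over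
the constants which contains `p i` is contained `w i` times in all the members, which are not
reduced. If there are always two independent leading forms, then the bound follows, since the spaces
of leading forms grow whenever the multiplicities of suitable other points are lowered.
-/

namespace Pool.Agent.Results.MP_0dccba_ag.PrimeDistinctMultiplicities

open MvPolynomial Pool.Agent.TH167.SHDefs

/-- `h¹` of the class `d H - ∑ w i E i`: the dimension of the linear system minus the virtual one. -/
noncomputable def hOne {k : Type} [Field k] {s : ℕ} (P : Fin s → Fin 2 → k) (d : ℕ)
    (w : Fin s → ℕ) : ℤ := dimL P d w - virtdim d w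

/-- Every multiplicity which is at least `2` is one of the numbers `y` and `y - 1` for an element
`y` of `Y`. -/
def Adapted {s : ℕ} (Y : Finset ℕ) (w : Fin s → ℕ) : Prop :=
  ∀ i, 2 ≤ w i → w i ∈ Y ∨ w i + 1 ∈ Y

/-- The sum of the numbers `binom (y - 1) 2` over `y ∈ Y`. -/
def bound (Y : Finset ℕ) : ℤ := ∑ y ∈ Y, ((y - 1).choose 2 : ℤ)

theorem result (k : Type) [Field k] [CharZero k] (s : ℕ) (P : Fin s → Fin 2 → k)
    (hP : AlgebraicIndependent ℚ (fun ij : Fin s × Fin 2 => P ij.1 ij.2)) (d : ℕ)
    (w : Fin s → ℕ) (G : MvPolynomial (Fin 3) k)
    (hG : Curve P G d w ∨ (Squarefree G ∧ G ∈ sys P d w)) (Y : Finset ℕ) (hY : Adapted Y w) :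
    hOne P d w ≤ bound Y := by
  have h : Squarefree G ∧ G ∈ sys P d w := by
    rcases hG with hG | hG
    · refine ⟨hG.irreducible.squarefree, ?_⟩
      unfold sys
      rw [Submodule.mem_inf, mem_homogeneousSubmodule, Submodule.restrictScalars_mem,
        Ideal.mem_iInf]
      exact ⟨hG.homogeneous, fun i => (hG.mult i).1⟩
    · exact hG
  exact Pool.Agent.Q78.FO.reduced_h1 hP h.1 h.2 Y hY

end Pool.Agent.Results.MP_0dccba_ag.PrimeDistinctMultiplicities
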