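import Mathlib
import Pool.Agent.Q310.FP.Fourth

set_option autoImplicit false

/-!
# Prime divisors: the fourth multiplicity bounds the standard forms with nonzero first cohomology

Let `k` be a field of characteristic zero and `X` the blow-up of the plane at `n ≥ 4` generic points.
Let `C` be a prime divisor of class `(d, w)` on `X`. Then `h¹ (C) = 0`, or finitely many quadratic
transformations carry `(d, w)` to a standard class `(d1, w1)` with `h⁰ (d1, w1) = h⁰ (C)`, which is
special and satisfies `Rem4`.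

`Small4 d v`, for multiplicities `v 0 ≥ v 1 ≥ ⋯`, means: `v 3 > 0`; `v 2 < 2 (v 3) ^ 2 + 3 v 3 + 2`;
`v 2 < 4 m ^ 2 + 8 m + 5` for every `m ≥ 1` such that at most the first five multiplicities are
larger than `m`; `(d + 1) (d + 2) < 2 ^ 17 (v 3 + 1) ^ 4 + ∑_{i < 3} v i (v i + 1)`;
`∑_{i ≥ 3} (v i + 1).choose 2 < 2 ^ 17 (v 3 + 1) ^ 4`; and
`d + 1 + v 0 v 1 + v 0 v 2 + v 1 v 2 < 2 ^ 16 (v 3 + 1) ^ 4`. `Rem4 d w`: the multiplicities `w`, in
decreasing order, satisfy `Small4`. So for every value of the fourth multiplicity only finitely many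
classes satisfy `Rem4`, for all numbers of points together.
-/

namespace Pool.Agent.Results.MP_0dccba_ag.PrimeFourthMultiplicity

open MvPolynomial Pool.Agent.TH167.SHDefs Pool.Agent.Q310.FP

/-- `h¹` of the class `d H - ∑ w i E i`: the dimension of the linear system minus the virtual one. -/
noncomputable def hOne {k : Type} [Field k] {n : ℕ} (P : Fin n → Fin 2 → k) (d : ℕ)
    (w : Fin n → ℕ) : ℤ := dimL P d w - virtdim d w

theorem result (k : Type) [Field k] [CharZero k] (n : ℕ) (hn : 4 ≤ n)
    (P : Fin n → Fin 2 → k)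
    (hP : AlgebraicIndependent ℚ (fun ij : Fin n × Fin 2 => P ij.1 ij.2))
    (d : ℕ) (w : Fin n → ℕ) (C : MvPolynomial (Fin 3) k) (hC : Curve P C d w) :
    hOne P d w = 0 ∨ ∃ (d1 : ℕ) (w1 : Fin n → ℕ),
      Relation.ReflTransGen Quadratic (d, w) (d1, w1) ∧ Standard d1 w1 ∧
      Special P d1 w1 ∧ dimL P d1 w1 = dimL P d w ∧ Rem4 d1 w1 := by
  by_cases h : dimL P d w = virtdim d w
  · left
    unfold hOne
    omega
  · exact Or.inr (prime_rem hn (R := Rem4) (std_or4 hn) hP hC h)

end Pool.Agent.Results.MP_0dccba_ag.PrimeFourthMultiplicity
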