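import Mathlib
import Pool.Agent.Q310.FP.Gap

set_option autoImplicit false

/-!
# Prime divisors with nonzero first cohomology: the uniform gap above the Nagata bound

Let `k` be a field of characteristic zero and `X` the blow-up of the plane at `n ≥ 4` generic points.
Let `C` be a prime divisor of class `(d, w)` on `X`. Then `h¹ (C) = 0`, or finitely many quadratic
transformations carry `(d, w)` to a standard class `(d1, w1)` with `h⁰ (d1, w1) = h⁰ (C)`, which is
special and satisfies `AboveGap`.

`AboveGap d w` means, if `d > 0`, for every set `T` of at least ten points: if `T` has at least twelve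
points or `3` does not divide `d`, then `∑_T w i + 1 - 3 / √|T| ≤ √|T| d`; and if the multiplicities on
`T` are `k` or `k + 1`, `k ≥ 1`, then `∑_T (w i) ^ 2 < d ^ 2`, except that equality is allowed if
`|T| = 10`, `k = 1` and `d` is `4` or `5`.
-/

namespace Pool.Agent.Results.MP_0dccba_ag.PrimeUniformGap

open MvPolynomial Pool.Agent.TH167.SHDefs Pool.Agent.Q310.FP

/-- `h¹` of the class `d H - ∑ w i E i`: the dimension of the linear system minus the virtual one. -/
noncomputable def hOne {k : Type} [Field k] {n : ℕ} (P : Fin n → Fin 2 → k) (d : ℕ)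
    (w : Fin n → ℕ) : ℤ := dimL P d w - virtdim d w

theorem result (k : Type) [Field k] [CharZero k] (n : ℕ) (hn : 4 ≤ n)
    (P : Fin n → Fin 2 → k)
    (hP : AlgebraicIndependent ℚ (fun ij : Fin n × Fin 2 => P ij.1 ij.2))
    (d : ℕ) (w : Fin n → ℕ) (C : MvPolynomial (Fin 3) k) (hC : Curve P C d w) :
    hOne P d w = 0 ∨ ∃ (d1 : ℕ) (w1 : Fin n → ℕ),
      Relation.ReflTransGen Quadratic (d, w) (d1, w1) ∧ Standard d1 w1 ∧
      Special P d1 w1 ∧ dimL P d1 w1 = dimL P d w ∧ AboveGap d1 w1 := by
  by_cases h : dimL P d w = virtdim d w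
  · left
    unfold hOne
    omega
  · exact Or.inr (prime_rem hn (R := AboveGap) (fun d w _ => gap_or d w) hP hC h)

end Pool.Agent.Results.MP_0dccba_ag.PrimeUniformGap
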